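import Pool.Agent.H37Du.Dual

/-!
# Binary vectors: rank at most ten

`m e`, `e ∈ E`, are vectors in `F_2 ^ r`, `|E| = 2 r`, `r ≤ 10`, and `f` is a function on the
subsets of `E` which vanishes at `A` unless `A` and its complement are bases. If the sums of `f`
and of its complement function over the sets which contain `C` vanish for `|C| = r - 1` and
`|C| = r - 2`, then they vanish for all `C` with `|C| < r`.
-/

set_option autoImplicit false

open Finset

namespace Pool.Agent.H37Du

variable {E : Type*} [Fintype E] [DecidableEq E]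

/-- A small cocircuit which avoids `C`. -/
theorem exists_small {r : ℕ} (m : E → Fin r → ZMod 2) (C : Finset E) (hr : r ≤ 10)
    (hE : Fintype.card E = 2 * r) (hC : C.card + 4 = r) :
    ∃ φ : Module.Dual (ZMod 2) (Fin r → ZMod 2), φ ≠ 0 ∧ (∀ c ∈ C, φ (m c) = 0) ∧
      (univ.filter (fun e => φ (m e) ≠ 0)).card ≤ 7 := by
  classical
  by_contra hcon
  push_neg at hcon
  let V := Fin r → ZMod 2
  let L : Module.Dual (ZMod 2) V →ₗ[ZMod 2] (C → ZMod 2) :=
    LinearMap.pi (fun c => Module.Dual.eval (ZMod 2) V (m c))
  have hLmem : ∀ φ : Module.Dual (ZMod 2) V, φ ∈ LinearMap.ker L ↔ ∀ c ∈ C, φ (m c) = 0 := by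
    intro φ
    rw [LinearMap.mem_ker]
    constructor
    · intro h c hc
      exact congrFun h ⟨c, hc⟩
    · intro h
      funext c
      exact h c c.2
  have hrank : Module.finrank (ZMod 2) (LinearMap.ker L) ≥ 4 := by
    have h1 := LinearMap.finrank_range_add_finrank_ker L
    have h2 : Module.finrank (ZMod 2) (LinearMap.range L) ≤ C.card := by
      refine (Submodule.finrank_le _).trans ?_
      rw [Module.finrank_fintype_fun_eq_card]
      simp
    have h3 : Module.finrank (ZMod 2) (Module.Dual (ZMod 2) V) = r := by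
      rw [Subspace.dual_finrank_eq]
      simp [V]
    omega
  haveI : Finite (Module.Dual (ZMod 2) V) := Module.finite_of_finite (ZMod 2)
  haveI : Fintype (LinearMap.ker L) := Fintype.ofFinite _
  have hcardW : 16 ≤ Fintype.card (LinearMap.ker L) := by
    rw [Module.card_eq_pow_finrank (K := ZMod 2) (V := LinearMap.ker L), ZMod.card]
    calc 16 = 2 ^ 4 := by norm_num
      _ ≤ _ := Nat.pow_le_pow_right (by norm_num) hrank
  -- double count
  have hdc : ∑ φ : LinearMap.ker L, (univ.filter (fun e => φ.1 (m e) ≠ 0)).card =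
      ∑ e : E, (univ.filter (fun φ : LinearMap.ker L => φ.1 (m e) ≠ 0)).card := by
    simp only [card_filter]
    exact sum_comm
  have hhalf : ∀ e : E, 2 * (univ.filter (fun φ : LinearMap.ker L => φ.1 (m e) ≠ 0)).card ≤
      Fintype.card (LinearMap.ker L) := by
    intro e
    by_cases hex : ∃ φ0 : LinearMap.ker L, φ0.1 (m e) ≠ 0
    · obtain ⟨φ0, h0⟩ := hex
      have hinj : (univ.filter (fun φ : LinearMap.ker L => φ.1 (m e) ≠ 0)).card ≤
          (univ.filter (fun φ : LinearMap.ker L => ¬ φ.1 (m e) ≠ 0)).card := by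
        apply card_le_card_of_injOn (fun φ => φ + φ0)
        · intro φ hφ
          simp only [coe_filter, mem_univ, true_and, Set.mem_setOf_eq, not_not] at hφ ⊢
          have hz : ∀ x y : ZMod 2, x ≠ 0 → y ≠ 0 → x + y = 0 := by decide
          exact hz _ _ hφ h0
        · intro a _ b _ hab
          exact add_right_cancel hab
      have := card_filter_add_card_filter_not (s := (univ : Finset (LinearMap.ker L)))
        (fun φ : LinearMap.ker L => φ.1 (m e) ≠ 0)
      rw [card_univ] at this
      omega
    · push_neg at hex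
      have : (univ.filter (fun φ : LinearMap.ker L => φ.1 (m e) ≠ 0)) = ∅ := by
        apply filter_eq_empty_iff.2
        intro φ _
        simp [hex φ]
      rw [this]
      simp
  have hzero : ∀ e ∈ C, (univ.filter (fun φ : LinearMap.ker L => φ.1 (m e) ≠ 0)).card = 0 := by
    intro e he
    rw [card_eq_zero]
    apply filter_eq_empty_iff.2
    intro φ _
    simp [(hLmem φ.1).1 φ.2 e he]
  have hup : 2 * ∑ e : E, (univ.filter (fun φ : LinearMap.ker L => φ.1 (m e) ≠ 0)).card ≤
      14 * Fintype.card (LinearMap.ker L) := by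
    rw [← sum_add_sum_compl C, sum_eq_zero hzero, zero_add, mul_sum]
    calc ∑ e ∈ Cᶜ, 2 * (univ.filter (fun φ : LinearMap.ker L => φ.1 (m e) ≠ 0)).card
        ≤ ∑ e ∈ Cᶜ, Fintype.card (LinearMap.ker L) := sum_le_sum (fun e _ => hhalf e)
      _ = Cᶜ.card * Fintype.card (LinearMap.ker L) := by rw [sum_const, smul_eq_mul]
      _ ≤ 14 * Fintype.card (LinearMap.ker L) := by
          apply Nat.mul_le_mul_right
          rw [card_compl, hE]
          omega
  have hlow : 8 * (Fintype.card (LinearMap.ker L) - 1) ≤
      ∑ φ : LinearMap.ker L, (univ.filter (fun e => φ.1 (m e) ≠ 0)).card := by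
    calc 8 * (Fintype.card (LinearMap.ker L) - 1)
        = ∑ φ ∈ univ.erase (0 : LinearMap.ker L), 8 := by
          rw [sum_const, card_erase_of_mem (mem_univ _), card_univ, smul_eq_mul, mul_comm]
      _ ≤ ∑ φ ∈ univ.erase (0 : LinearMap.ker L),
          (univ.filter (fun e => φ.1 (m e) ≠ 0)).card := by
          apply sum_le_sum
          intro φ hφ
          apply hcon φ.1
          · intro h
            exact (mem_erase.1 hφ).1 (Subtype.ext h)
          · exact (hLmem φ.1).1 φ.2
      _ ≤ _ := sum_le_sum_of_subset (erase_subset _ _)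
  omega

/-- All levels, for `r ≤ 10`. -/
theorem all_levels {r : ℕ} (m : E → Fin r → ZMod 2) (f : Finset E → ZMod 2) (hr : r ≤ 10)
    (hE : Fintype.card E = 2 * r) (hcard : ∀ A, f A ≠ 0 → A.card = r)
    (hb : ∀ A, f A ≠ 0 → ∀ φ : Module.Dual (ZMod 2) (Fin r → ZMod 2), (∀ e ∈ A, φ (m e) = 0) →
      φ = 0)
    (hb' : ∀ A, f A ≠ 0 → ∀ φ : Module.Dual (ZMod 2) (Fin r → ZMod 2), (∀ e ∈ Aᶜ, φ (m e) = 0) →
      φ = 0)
    (h1 : ∀ C : Finset E, C.card + 1 = r → sm f C = 0 ∧ sm (fun A => f Aᶜ) C = 0)
    (h2 : ∀ C : Finset E, C.card + 2 = r → sm f C = 0 ∧ sm (fun A => f Aᶜ) C = 0) :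
    ∀ k : ℕ, 0 < k → ∀ C : Finset E, C.card + k = r →
      sm f C = 0 ∧ sm (fun A => f Aᶜ) C = 0 := by
  have hcard' : ∀ A, f Aᶜ ≠ 0 → A.card = r := by
    intro A hA
    have := hcard _ hA
    have h2 := card_le_univ A
    rw [card_compl, hE] at this
    rw [hE] at h2
    omega
  intro k
  induction k using Nat.strong_induction_on with
  | _ k ih =>
  intro hk C hC
  have ih1 : ∀ D : Finset E, C.card < D.card → D.card < r → sm f D = 0 := by
    intro D hD hDr
    exact (ih (r - D.card) (by omega) (by omega) D (by omega)).1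
  have ih2 : ∀ D : Finset E, C.card < D.card → D.card < r → sm (fun A => f Aᶜ) D = 0 := by
    intro D hD hDr
    exact (ih (r - D.card) (by omega) (by omega) D (by omega)).2
  have hcc : (fun A => (fun A => f Aᶜ) Aᶜ) = f := by
    funext A
    simp
  -- division
  have hdiv : (k : ZMod 2) ≠ 0 → 2 ≤ k → sm f C = 0 ∧ sm (fun A => f Aᶜ) C = 0 := by
    intro hk0 hk2
    constructor
    · apply div_level f hcard hk0 C hC
      intro e he
      apply ih1
      · rw [card_insert_of_notMem he]; omega
      · rw [card_insert_of_notMem he]; omega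
    · apply div_level (fun A => f Aᶜ) hcard' hk0 C hC
      intro e he
      apply ih2
      · rw [card_insert_of_notMem he]; omega
      · rw [card_insert_of_notMem he]; omega
  rcases Nat.lt_or_ge k 6 with hk6 | hk6
  · interval_cases k
    · exact h1 C hC
    · exact h2 C hC
    · exact hdiv (by decide) (by norm_num)
    · obtain ⟨φ, hφ, hφC, hφ7⟩ := exists_small m C hr hE hC
      set F : Finset E := univ.filter (fun e => φ (m e) = 0 ∧ e ∉ C) with hFdef
      have hdis : Disjoint C F := by
        rw [disjoint_left]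
        intro x hx hx2
        exact (mem_filter.1 hx2).2.2 hx
      have hFcard : C.card < F.card := by
        have e1 : univ = (C ∪ F) ∪ univ.filter (fun e => φ (m e) ≠ 0) := by
          ext x
          simp only [mem_univ, mem_union, mem_filter, true_and, hFdef, true_iff]
          tauto
        have e2 : (univ : Finset E).card ≤ C.card + F.card + 7 := by
          conv_lhs => rw [e1]
          refine (card_union_le _ _).trans ?_
          have := card_union_le C F
          omega
        rw [card_univ, hE] at e2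
        omega
      have hker : ∀ A : Finset E, A ⊆ C ∪ F → ∀ e ∈ A, φ (m e) = 0 := by
        intro A hA e he
        rcases mem_union.1 (hA he) with h | h
        · exact hφC e h
        · exact (mem_filter.1 h).2.1
      constructor
      · apply crit f hcard hcard' ih1 ih2 C F rfl hdis hFcard
        · intro A _ hA
          by_contra hf
          exact hφ (hb A hf φ (hker A hA))
        · intro A _ hA
          by_contra hf
          apply hφ
          apply hb' Aᶜ hf φ
          rw [compl_compl]
          exact hker A hA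
      · apply crit (fun A => f Aᶜ) hcard' (by simpa using hcard) ih2
          (by simpa using ih1) C F rfl hdis hFcard
        · intro A _ hA
          by_contra hf
          apply hφ
          apply hb' Aᶜ hf φ
          rw [compl_compl]
          exact hker A hA
        · intro A _ hA
          by_contra hf
          simp only [compl_compl] at hf
          exact hφ (hb A hf φ (hker A hA))
    · exact hdiv (by decide) (by norm_num)
  · constructor
    · exact free f hE hcard ih1 ih2 (by omega) C rfl
    · exact free (fun A => f Aᶜ) hE hcard' ih2 (by simpa using ih1) (by omega) C rfl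

/-- The value at the complement, for `r ≤ 10`. -/
theorem binary_value {r : ℕ} (m : E → Fin r → ZMod 2) (f : Finset E → ZMod 2) (hr : r ≤ 10)
    (hE : Fintype.card E = 2 * r) (hcard : ∀ A, f A ≠ 0 → A.card = r)
    (hb : ∀ A, f A ≠ 0 → ∀ φ : Module.Dual (ZMod 2) (Fin r → ZMod 2), (∀ e ∈ A, φ (m e) = 0) →
      φ = 0)
    (hb' : ∀ A, f A ≠ 0 → ∀ φ : Module.Dual (ZMod 2) (Fin r → ZMod 2), (∀ e ∈ Aᶜ, φ (m e) = 0) →
      φ = 0)
    (h1 : ∀ C : Finset E, C.card + 1 = r → sm f C = 0 ∧ sm (fun A => f Aᶜ) C = 0)
    (h2 : ∀ C : Finset E, C.card + 2 = r → sm f C = 0 ∧ sm (fun A => f Aᶜ) C = 0)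
    (A : Finset E) (hA : A.card = r) : f Aᶜ = (-1) ^ r * f A := by
  apply compl_value f hE hcard _ A hA
  intro C hC
  exact (all_levels m f hr hE hcard hb hb' h1 h2 (r - C.card) (by omega) C (by omega)).1

end Pool.Agent.H37Du
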