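import Pool.Agent.H37Du.Level
import Pool.Agent.H97CB.CB
import Pool.Agent.H60G2.Basic

/-!
# Binary vectors, rank at most ten: single exchanges lead from `S` to its complement
-/

set_option autoImplicit false

open Finset

namespace Pool.Agent.H37Du

section gen

variable {E : Type*} {K : Type*} [Field K] {V : Type*} [AddCommGroup V] [Module K V]

lemma indep_two (v : E → V) {C : Set E} (hC : LinearIndepOn K v C) {x y : E} (hx : x ∉ C)
    (hy : y ∉ C) (hxy : x ≠ y) :
    LinearIndepOn K v (insert x (insert y C)) ↔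
      v x ∉ Submodule.span K (v '' C) ∧ v y ∉ Submodule.span K (v '' C) ∧
        Submodule.span K (v '' insert x C) ≠ Submodule.span K (v '' insert y C) := by
  have hx2 : x ∉ insert y C := by
    rw [Set.mem_insert_iff]
    tauto
  rw [linearIndepOn_insert hx2, linearIndepOn_insert hy]
  have hmono : ∀ z : E, Submodule.span K (v '' C) ≤ Submodule.span K (v '' insert z C) := by
    intro z
    exact Submodule.span_mono (Set.image_mono (Set.subset_insert _ _))
  have hself : ∀ z : E, v z ∈ Submodule.span K (v '' insert z C) := by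
    intro z
    exact Submodule.subset_span ⟨z, Set.mem_insert _ _, rfl⟩
  constructor
  · rintro ⟨⟨_, h2⟩, h3⟩
    refine ⟨fun h => h3 (hmono y h), h2, fun h => h3 ?_⟩
    rw [← h]
    exact hself x
  · rintro ⟨h1, h2, h3⟩
    refine ⟨⟨hC, h2⟩, fun h => h3 ?_⟩
    have h4 : v y ∈ Submodule.span K (v '' insert x C) := by
      rw [Set.image_insert_eq] at h ⊢
      exact mem_span_insert_exchange h h1
    apply le_antisymm
    · rw [Submodule.span_le]
      rintro _ ⟨z, hz, rfl⟩
      rcases hz with rfl | hz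
      · exact h
      · exact hmono y (Submodule.subset_span ⟨z, hz, rfl⟩)
    · rw [Submodule.span_le]
      rintro _ ⟨z, hz, rfl⟩
      rcases hz with rfl | hz
      · exact h4
      · exact hmono x (Submodule.subset_span ⟨z, hz, rfl⟩)

end gen

variable {E : Type*} [Fintype E] [DecidableEq E] {K : Type*} [Field K] {r : ℕ}

/-- The sums over the sets of a closed family, for `|C| = r - 1` and `|C| = r - 2`. -/
theorem levels (v w : E → Fin r → K) (hrel : ∀ i j, ∑ x, v x i * w x j = 0)
    (Y : Finset E → Prop) [DecidablePred Y]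
    (hY : ∀ A B, H97CB.FF v w A ≠ 0 → H97CB.FF v w B ≠ 0 → r ≤ (A ∩ B).card + 1 → Y A → Y B) :
    (∀ C : Finset E, C.card + 1 = r →
      sm (fun A => if Y A then H97CB.FF v w A else 0) C = 0) ∧
    ∀ C : Finset E, C.card + 2 = r →
      sm (fun A => if Y A then H97CB.FF v w A else 0) C = 0 := by
  have h1 : ∀ C : Finset E, C.card + 1 = r →
      sm (fun A => if Y A then H97CB.FF v w A else 0) C = 0 := by
    intro C hC
    exact level1 (H97CB.FF v w) Y hY C hC (H97CB.FF_sum hrel C (by omega))
  refine ⟨h1, ?_⟩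
  intro C hC
  have hcard : ∀ A, H97CB.FF v w A ≠ 0 → A.card = r := fun A hA =>
    ((H97CB.FF_ne_zero v w A).1 hA).1
  by_cases hind : LinearIndepOn K v (C : Set E) ∧ LinearIndepOn K w (C : Set E)
  · obtain ⟨hv, hw⟩ := hind
    refine level2 (H97CB.FF v w) hcard Y hY C hC (H97CB.FF_sum hrel C (by omega)) h1
      (fun x => v x ∉ Submodule.span K (v '' (C : Set E)) ∧
        w x ∉ Submodule.span K (w '' (C : Set E)))
      (fun x => Submodule.span K (v '' insert x (C : Set E)))
      (fun x => Submodule.span K (w '' insert x (C : Set E))) ?_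
    intro x y hx hy hxy
    rw [H97CB.FF_ne_zero]
    have hc : (insert x (insert y C)).card = r := by
      rw [card_insert_of_notMem, card_insert_of_notMem hy]
      · omega
      · rw [mem_insert]
        tauto
    rw [coe_insert, coe_insert, indep_two v hv (by exact_mod_cast hx) (by exact_mod_cast hy) hxy,
      indep_two w hw (by exact_mod_cast hx) (by exact_mod_cast hy) hxy]
    tauto
  · unfold sm
    apply sum_eq_zero
    intro A hA
    simp only [mem_filter, mem_univ, true_and] at hA
    have : H97CB.FF v w A = 0 := by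
      by_contra h
      have h2 := (H97CB.FF_ne_zero v w A).1 h
      exact hind ⟨h2.2.1.mono (by exact_mod_cast hA), h2.2.2.mono (by exact_mod_cast hA)⟩
    simp [this]

theorem FF_compl (v w : E → Fin r → K) (hrel : ∀ i j, ∑ x, v x i * w x j = 0)
    (hE : Fintype.card E = 2 * r) (A : Finset E) :
    H97CB.FF v w Aᶜ = (-1) ^ r * H97CB.FF v w A := by
  have hle := card_le_univ A
  rw [hE] at hle
  unfold H97CB.FF
  rw [card_compl, hE]
  by_cases h : A.card = r
  · rw [if_pos h, if_pos (by omega), compl_eq_univ_sdiff, H97CB.MM_compl hrel, Matrix.det_neg,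
      Fintype.card_fin]
  · rw [if_neg h, if_neg (by omega), mul_zero]

/-- **Single exchanges for binary vectors.** -/
theorem binary_reach (hr : r ≤ 10) (v w : E → Fin r → ZMod 2)
    (hrel : ∀ i j, ∑ x, v x i * w x j = 0) (hE : Fintype.card E = 2 * r) (S : Finset E)
    (hS : H97CB.FF v w S ≠ 0) :
    Relation.ReflTransGen (fun A B => H97CB.FF v w A ≠ 0 ∧ H97CB.FF v w B ≠ 0 ∧
      r ≤ (A ∩ B).card + 1) S Sᶜ := by
  classical
  set R : Finset E → Finset E → Prop := fun A B => H97CB.FF v w A ≠ 0 ∧ H97CB.FF v w B ≠ 0 ∧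
      r ≤ (A ∩ B).card + 1 with hR
  by_contra hcon
  set Y : Finset E → Prop := fun A => Relation.ReflTransGen R S A with hYdef
  have hY : ∀ A B, H97CB.FF v w A ≠ 0 → H97CB.FF v w B ≠ 0 → r ≤ (A ∩ B).card + 1 → Y A → Y B :=
    fun A B h1 h2 h3 h4 => h4.tail ⟨h1, h2, h3⟩
  set f : Finset E → ZMod 2 := fun A => if Y A then H97CB.FF v w A else 0 with hf
  have hcF : ∀ A, H97CB.FF v w A ≠ 0 → A.card = r := fun A hA =>
    ((H97CB.FF_ne_zero v w A).1 hA).1
  have hfF : ∀ A, f A ≠ 0 → H97CB.FF v w A ≠ 0 := by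
    intro A hA h
    apply hA
    simp [hf, h]
  have hcompl0 : ∀ A, H97CB.FF v w A ≠ 0 → H97CB.FF v w Aᶜ ≠ 0 := by
    intro A hA
    rw [FF_compl v w hrel hE]
    exact mul_ne_zero (pow_ne_zero _ (neg_ne_zero.2 one_ne_zero)) hA
  have hcard : ∀ A, f A ≠ 0 → A.card = r := fun A hA => hcF A (hfF A hA)
  have hspan : ∀ A, H97CB.FF v w A ≠ 0 → ∀ φ : Module.Dual (ZMod 2) (Fin r → ZMod 2),
      (∀ e ∈ A, φ (v e) = 0) → φ = 0 := by
    intro A hA φ hφ
    obtain ⟨h1, h2, _⟩ := (H97CB.FF_ne_zero v w A).1 hA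
    have h3 : LinearIndependent (ZMod 2) (fun a : A => v a) := h2
    have h4 : Submodule.span (ZMod 2) (Set.range fun a : A => v a) = ⊤ := by
      apply h3.span_eq_top_of_card_eq_finrank'
      simp [h1]
    apply LinearMap.ext
    intro x
    have h5 : x ∈ Submodule.span (ZMod 2) (Set.range fun a : A => v a) := by rw [h4]; trivial
    have h6 : Submodule.span (ZMod 2) (Set.range fun a : A => v a) ≤ LinearMap.ker φ := by
      rw [Submodule.span_le]
      rintro _ ⟨a, rfl⟩
      exact hφ a a.2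
    exact h6 h5
  obtain ⟨l1, l2⟩ := levels v w hrel Y hY
  have hY' : ∀ A B, H97CB.FF v w A ≠ 0 → H97CB.FF v w B ≠ 0 → r ≤ (A ∩ B).card + 1 →
      Y Aᶜ → Y Bᶜ := by
    intro A B h1 h2 h3 h4
    apply hY _ _ (hcompl0 A h1) (hcompl0 B h2) _ h4
    rw [← compl_union, card_compl, hE]
    have := card_union_add_card_inter A B
    rw [hcF A h1, hcF B h2] at this
    omega
  obtain ⟨l1', l2'⟩ := levels v w hrel (fun A => Y Aᶜ) hY'
  have hff : ∀ C, sm (fun A => f Aᶜ) C =
      (-1) ^ r * sm (fun A => if Y Aᶜ then H97CB.FF v w A else 0) C := by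
    intro C
    unfold sm
    rw [mul_sum]
    apply sum_congr rfl
    intro A _
    simp only [hf]
    rw [FF_compl v w hrel hE]
    split_ifs <;> simp
  have hval := binary_value v f hr hE hcard
    (fun A hA => hspan A (hfF A hA))
    (fun A hA => hspan Aᶜ (hcompl0 A (hfF A hA)))
    (fun C hC => ⟨l1 C hC, by rw [hff, l1' C hC, mul_zero]⟩)
    (fun C hC => ⟨l2 C hC, by rw [hff, l2' C hC, mul_zero]⟩) S (hcF S hS)
  have h0 : f Sᶜ = 0 := by
    simp only [hf]
    rw [if_neg hcon]
  have h1 : f S = H97CB.FF v w S := by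
    simp only [hf]
    rw [if_pos Relation.ReflTransGen.refl]
  rw [h0, h1] at hval
  exact mul_ne_zero (pow_ne_zero _ (neg_ne_zero.2 one_ne_zero)) hS hval.symm

end Pool.Agent.H37Du
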