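import Pool.Agent.H37Du.Core
import Pool.Agent.H41FR2.Lin

/-!
# Single exchanges over every field: the count

`v e`, `w e`, `e ∈ E`, `|E| = 2 r`, are vectors in `K ^ r` with `∑ v e ⊗ w e = 0`, and `Y` is a
family of sets which is closed under exchanges between common bases. The sum of the determinants
over the members of `Y` which contain a set `C` of size `r - k` vanishes if `r ≤ 4 k - 3`, provided
that this holds for all smaller `k`.
-/

set_option autoImplicit false

open Finset

namespace Pool.Agent.H37Du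

/-- The grid. -/
theorem grid {E : Type*} [Fintype E] [DecidableEq E] {K : Type*} [Field K] {r : ℕ}
    {β γ : Type*} (F : Finset E → K)
    (Y : Finset E → Prop)
    (hY : ∀ A B, F A ≠ 0 → F B ≠ 0 → r ≤ (A ∩ B).card + 1 → Y A → Y B)
    (C : Finset E) (hC : C.card + 2 = r)
    (T : E → Prop) (V : E → β) (W : E → γ)
    (hF : ∀ x y, x ∉ C → y ∉ C → x ≠ y →
      (F (insert x (insert y C)) ≠ 0 ↔ T x ∧ T y ∧ V x ≠ V y ∧ W x ≠ W y))
    (a b c d : E) (ha : a ∉ C) (hb : b ∉ C) (hab : a ≠ b) (hc : c ∉ C) (hd : d ∉ C) (hcd : c ≠ d)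
    (hFA : F (insert a (insert b C)) ≠ 0) (hYA : Y (insert a (insert b C)))
    (hFA' : F (insert c (insert d C)) ≠ 0) (hYA' : ¬ Y (insert c (insert d C))) :
    ∀ e, e ∉ C → T e → V e = V a ∨ V e = V b := by
  classical
  have hadj : ∀ x y z, x ∉ C → F (insert x (insert y C)) ≠ 0 → F (insert x (insert z C)) ≠ 0 →
      Y (insert x (insert y C)) → Y (insert x (insert z C)) := by
    intro x y z hx h2 h3 h4
    apply hY _ _ h2 h3 _ h4
    have h5 : insert x C ⊆ insert x (insert y C) ∩ insert x (insert z C) := by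
      apply subset_inter
      · exact insert_subset_insert _ (subset_insert _ _)
      · exact insert_subset_insert _ (subset_insert _ _)
    have := card_le_card h5
    rw [card_insert_of_notMem hx] at this
    omega
  obtain ⟨Ta, Tb, Vab, Wab⟩ := (hF a b ha hb hab).1 hFA
  obtain ⟨Tc, Td, Vcd, Wcd⟩ := (hF c d hc hd hcd).1 hFA'
  -- elements adjacent to the first pair
  have hP : ∀ e, e ∉ C → T e → (V e = V a ∨ V e = V b) ∨
      ∃ z, F (insert e (insert z C)) ≠ 0 ∧ Y (insert e (insert z C)) := by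
    intro e he Te
    by_cases h2 : V e = V a
    · exact Or.inl (Or.inl h2)
    by_cases h3 : V e = V b
    · exact Or.inl (Or.inr h3)
    right
    by_cases h4 : W e = W a
    · have h5 : W e ≠ W b := fun h => Wab (h4.symm.trans h)
      have heb : e ≠ b := fun h => h3 (by rw [h])
      have h6 := (hF e b he hb heb).2 ⟨Te, Tb, h3, h5⟩
      refine ⟨b, h6, ?_⟩
      rw [insert_comm] at h6 ⊢
      rw [insert_comm] at hFA hYA
      exact hadj b a e hb hFA h6 hYA
    · have hea : e ≠ a := fun h => h2 (by rw [h])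
      have h6 := (hF e a he ha hea).2 ⟨Te, Ta, h2, h4⟩
      refine ⟨a, h6, ?_⟩
      rw [insert_comm] at h6 ⊢
      exact hadj a b e ha hFA h6 hYA
  have hQ : ∀ e, e ∉ C → T e → (V e = V c ∨ V e = V d) ∨
      ∃ z, F (insert e (insert z C)) ≠ 0 ∧ ¬ Y (insert e (insert z C)) := by
    intro e he Te
    by_cases h2 : V e = V c
    · exact Or.inl (Or.inl h2)
    by_cases h3 : V e = V d
    · exact Or.inl (Or.inr h3)
    right
    by_cases h4 : W e = W c
    · have h5 : W e ≠ W d := fun h => Wcd (h4.symm.trans h)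
      have hed : e ≠ d := fun h => h3 (by rw [h])
      have h6 := (hF e d he hd hed).2 ⟨Te, Td, h3, h5⟩
      refine ⟨d, h6, fun h7 => hYA' ?_⟩
      rw [insert_comm] at h6 h7 hFA' ⊢
      exact hadj d e c hd h6 hFA' h7
    · have hec : e ≠ c := fun h => h2 (by rw [h])
      have h6 := (hF e c he hc hec).2 ⟨Te, Tc, h2, h4⟩
      refine ⟨c, h6, fun h7 => hYA' ?_⟩
      rw [insert_comm] at h6 h7
      exact hadj c e d hc h6 hFA' h7
  have hVc : V c = V a ∨ V c = V b := by
    rcases hP c hc Tc with h | ⟨z, h2, h3⟩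
    · exact h
    · exact absurd (hadj c z d hc h2 hFA' h3) hYA'
  have hVd : V d = V a ∨ V d = V b := by
    rcases hP d hd Td with h | ⟨z, h2, h3⟩
    · exact h
    · rw [insert_comm] at hFA' hYA'
      exact absurd (hadj d z c hd h2 hFA' h3) hYA'
  intro e he Te
  rcases hP e he Te with h | ⟨z, h2, h3⟩
  · exact h
  rcases hQ e he Te with h | ⟨z', h4, h5⟩
  · rcases h with h | h
    · rw [h]; exact hVc
    · rw [h]; exact hVd
  · exact absurd (hadj e z z' he h2 h4 h3) h5

variable {E : Type*} [Fintype E] [DecidableEq E] {K : Type*} [Field K] {r : ℕ}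

open Classical in
/-- The determinant products on the members of `Y`. -/
noncomputable def ff (v w : E → Fin r → K) (Y : Finset E → Prop) (A : Finset E) : K :=
  if Y A then H97CB.FF v w A else 0

lemma ff_pos {v w : E → Fin r → K} {Y : Finset E → Prop} {A : Finset E} (h : Y A) :
    ff v w Y A = H97CB.FF v w A := by
  simp [ff, h]

lemma ff_neg {v w : E → Fin r → K} {Y : Finset E → Prop} {A : Finset E} (h : ¬ Y A) :
    ff v w Y A = 0 := by
  simp [ff, h]

lemma ff_ne {v w : E → Fin r → K} {Y : Finset E → Prop} {A : Finset E} (h : ff v w Y A ≠ 0) :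
    Y A ∧ H97CB.FF v w A ≠ 0 := by
  by_cases hY : Y A
  · rw [ff_pos hY] at h
    exact ⟨hY, h⟩
  · exact absurd (ff_neg hY) h

/-- `Y` is closed under exchanges. -/
def Cl (v w : E → Fin r → K) (Y : Finset E → Prop) : Prop :=
  ∀ A B, H97CB.FF v w A ≠ 0 → H97CB.FF v w B ≠ 0 → r ≤ (A ∩ B).card + 1 → Y A → Y B

lemma FF_compl_ne {v w : E → Fin r → K} (hrel : ∀ i j, ∑ x, v x i * w x j = 0)
    (hE : Fintype.card E = 2 * r) {A : Finset E} (hA : H97CB.FF v w A ≠ 0) :
    H97CB.FF v w Aᶜ ≠ 0 := by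
  rw [FF_compl v w hrel hE]
  exact mul_ne_zero (pow_ne_zero _ (neg_ne_zero.2 one_ne_zero)) hA

lemma Cl_compl {v w : E → Fin r → K} (hrel : ∀ i j, ∑ x, v x i * w x j = 0)
    (hE : Fintype.card E = 2 * r) {Y : Finset E → Prop} (hY : Cl v w Y) :
    Cl v w (fun A => Y Aᶜ) := by
  intro A B h1 h2 h3 h4
  apply hY _ _ (FF_compl_ne hrel hE h1) (FF_compl_ne hrel hE h2) _ h4
  rw [← compl_union, card_compl, hE]
  have := card_union_add_card_inter A B
  rw [((H97CB.FF_ne_zero v w A).1 h1).1, ((H97CB.FF_ne_zero v w B).1 h2).1] at this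
  omega

lemma sm_compl {v w : E → Fin r → K} (hrel : ∀ i j, ∑ x, v x i * w x j = 0)
    (hE : Fintype.card E = 2 * r) (Y : Finset E → Prop) (C : Finset E) :
    sm (fun A => ff v w Y Aᶜ) C = (-1) ^ r * sm (ff v w fun A => Y Aᶜ) C := by
  unfold sm
  rw [mul_sum]
  apply sum_congr rfl
  intro A _
  simp only [ff, FF_compl v w hrel hE]
  split_ifs <;> simp

lemma nm_eq_sm {f : Finset E → K} {s : ℕ} (hcard : ∀ A, f A ≠ 0 → A.card = r)
    (h1 : ∀ C : Finset E, s < C.card → C.card < r → sm f C = 0)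
    (C Z : Finset E) (hC : C.card = s) (hdis : Disjoint C Z)
    (hF1 : ∀ A, C ⊆ A → A ⊆ C ∪ Z → f A = 0) : nm f C Z = sm f C := by
  rw [incl_excl, ← sum_erase_add _ _ (empty_mem_powerset Z)]
  rw [sum_eq_zero, zero_add]
  · simp
  · intro Z' hZ'
    rw [mem_erase, mem_powerset] at hZ'
    have hne : Z'.Nonempty := nonempty_iff_ne_empty.2 hZ'.1
    have hd : Disjoint C Z' := disjoint_of_subset_right hZ'.2 hdis
    have hlt : s < (C ∪ Z').card := by
      rw [card_union_of_disjoint hd, hC]
      have := hne.card_pos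
      omega
    have : sm f (C ∪ Z') = 0 := by
      rcases lt_or_ge (C ∪ Z').card r with h | h
      · exact h1 _ hlt h
      · unfold sm
        apply sum_eq_zero
        intro A hA
        simp only [mem_filter, mem_univ, true_and] at hA
        by_contra hne
        have hc := hcard A hne
        have he : C ∪ Z' = A := eq_of_subset_of_card_le hA (by omega)
        exact hne (he ▸ hF1 _ subset_union_left (union_subset_union_right hZ'.2))
    rw [this, mul_zero]

/-- A hyperplane which contains `C` is small. -/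
theorem hyp_bound {v w : E → Fin r → K} (hrel : ∀ i j, ∑ x, v x i * w x j = 0)
    (hE : Fintype.card E = 2 * r) {Y : Finset E → Prop} {s : ℕ}
    (h1 : ∀ C : Finset E, s < C.card → C.card < r → sm (ff v w Y) C = 0)
    (h1' : ∀ C : Finset E, s < C.card → C.card < r → sm (fun A => ff v w Y Aᶜ) C = 0)
    (C : Finset E) (hC : C.card = s) (hne : sm (ff v w Y) C ≠ 0)
    (H : Finset E) (hCH : C ⊆ H) (hH : ∀ A, A ⊆ H → H97CB.FF v w A = 0) : H.card ≤ 2 * s := by
  by_contra hcon
  apply hne
  have hcard : ∀ A, ff v w Y A ≠ 0 → A.card = r := fun A hA =>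
    ((H97CB.FF_ne_zero v w A).1 (ff_ne hA).2).1
  have hcard' : ∀ A, ff v w Y Aᶜ ≠ 0 → A.card = r := by
    intro A hA
    have := hcard _ hA
    have h2 := card_le_univ A
    rw [card_compl, hE] at this
    rw [hE] at h2
    omega
  have hun : C ∪ (H \ C) = H := union_sdiff_of_subset hCH
  apply crit (ff v w Y) hcard hcard' h1 h1' C (H \ C) hC disjoint_sdiff
  · rw [card_sdiff_of_subset hCH]
    omega
  · intro A _ hA
    rw [hun] at hA
    by_contra h
    exact (ff_ne h).2 (hH A hA)
  · intro A _ hA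
    rw [hun] at hA
    by_contra h
    have h2 := FF_compl_ne hrel hE (ff_ne h).2
    rw [compl_compl] at h2
    exact h2 (hH A hA)

/-- Common bases are not contained in a proper subspace. -/
lemma FF_zero_of_le {v w u : E → Fin r → K} (hu : u = v ∨ u = w)
    {p : Submodule K (Fin r → K)} (hp : p ≠ ⊤) {H : Finset E} (hH : ∀ e ∈ H, u e ∈ p) :
    ∀ A, A ⊆ H → H97CB.FF v w A = 0 := by
  intro A hA
  by_contra h
  obtain ⟨h1, h2, h3⟩ := (H97CB.FF_ne_zero v w A).1 h
  apply hp
  have h4 : LinearIndependent K (fun a : A => u a) := by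
    rcases hu with rfl | rfl
    · exact h2
    · exact h3
  have h5 : Submodule.span K (Set.range fun a : A => u a) = ⊤ := by
    apply h4.span_eq_top_of_card_eq_finrank'
    simp [h1]
  rw [eq_top_iff, ← h5, Submodule.span_le]
  rintro _ ⟨a, rfl⟩
  exact hH a (hA a.2)

end Pool.Agent.H37Du
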