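import Mathlib

/-!
# Duality for sums over the members of an exchange component

`f` is a function on the subsets of a set `E` of `2 r` elements which vanishes outside the
`r`-subsets. `sm f C` is the sum of `f A` over the sets `A ⊇ C`. If the sums of `f` and of its
complement function vanish for all sets `C` with `r - k < |C| < r`, then they vanish for
`|C| = r - k`, provided that there is a set `F` disjoint from `C` with more than `r - k` elements
such that `f` vanishes at the sets between `C` and `C ∪ F` and its complement function vanishes at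
the subsets of `C ∪ F` which contain `F`.
-/

set_option autoImplicit false

open Finset

namespace Pool.Agent.H37Du

variable {E : Type*} [Fintype E] [DecidableEq E] {K : Type*} [Field K]

/-- The sum of `f` over the sets which contain `C`. -/
def sm (f : Finset E → K) (C : Finset E) : K := ∑ A ∈ univ.filter (fun A => C ⊆ A), f A

/-- The sum of `f` over the sets which contain `C` and are disjoint from `D`. -/
def nm (f : Finset E → K) (C D : Finset E) : K :=
  ∑ A ∈ univ.filter (fun A => C ⊆ A ∧ Disjoint D A), f A

lemma nm_insert (f : Finset E → K) (C D : Finset E) (d : E) :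
    nm f C (insert d D) = nm f C D - nm f (insert d C) D := by
  unfold nm
  rw [eq_sub_iff_add_eq]
  rw [← sum_filter_add_sum_filter_not (univ.filter (fun A => C ⊆ A ∧ Disjoint D A))
    (fun A => d ∉ A) f]
  congr 1
  · apply sum_congr _ (fun _ _ => rfl)
    ext A
    simp only [mem_filter, mem_univ, true_and, disjoint_insert_left]
    tauto
  · apply sum_congr _ (fun _ _ => rfl)
    ext A
    simp only [mem_filter, mem_univ, true_and, insert_subset_iff, not_not]
    tauto

lemma incl_excl (f : Finset E → K) (D : Finset E) : ∀ C : Finset E,
    nm f C D = ∑ D' ∈ D.powerset, (-1) ^ D'.card * sm f (C ∪ D') := by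
  induction D using Finset.induction_on with
  | empty =>
    intro C
    simp [nm, sm]
  | insert d D hd ih =>
    intro C
    rw [nm_insert, ih, ih, sum_powerset_insert hd, sub_eq_add_neg, ← sum_neg_distrib]
    congr 1
    apply sum_congr rfl
    intro D' hD'
    have hdD' : d ∉ D' := fun h => hd (mem_powerset.1 hD' h)
    rw [card_insert_of_notMem hdD', pow_succ]
    have h2 : insert d C ∪ D' = C ∪ insert d D' := by
      ext x
      simp only [mem_union, mem_insert]
      tauto
    rw [h2]
    ring

lemma nm_compl (f : Finset E → K) (C D : Finset E) :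
    nm f C D = nm (fun A => f Aᶜ) D C := by
  unfold nm
  apply sum_nbij' (fun A => Aᶜ) (fun A => Aᶜ)
  · intro A hA
    simp only [mem_filter, mem_univ, true_and] at hA ⊢
    refine ⟨?_, ?_⟩
    · intro x hx
      rw [mem_compl]
      exact disjoint_left.1 hA.2 hx
    · rw [disjoint_left]
      intro x hx hx2
      exact (mem_compl.1 hx2) (hA.1 hx)
  · intro A hA
    simp only [mem_filter, mem_univ, true_and] at hA ⊢
    refine ⟨?_, ?_⟩
    · intro x hx
      rw [mem_compl]
      exact disjoint_left.1 hA.2 hx
    · rw [disjoint_left]
      intro x hx hx2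
      exact (mem_compl.1 hx2) (hA.1 hx)
  · intro A _
    simp
  · intro A _
    simp
  · intro A _
    simp

/-- The two expansions of `nm f C F`. -/
theorem crit {r s : ℕ} (f : Finset E → K) (hcard : ∀ A, f A ≠ 0 → A.card = r)
    (hcard' : ∀ A, f Aᶜ ≠ 0 → A.card = r)
    (h1 : ∀ C : Finset E, s < C.card → C.card < r → sm f C = 0)
    (h1' : ∀ C : Finset E, s < C.card → C.card < r → sm (fun A => f Aᶜ) C = 0)
    (C F : Finset E) (hC : C.card = s) (hdis : Disjoint C F) (hF : s < F.card)
    (hF1 : ∀ A, C ⊆ A → A ⊆ C ∪ F → f A = 0)
    (hF2 : ∀ A, F ⊆ A → A ⊆ C ∪ F → f Aᶜ = 0) : sm f C = 0 := by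
  have key : ∀ g : Finset E → K, (∀ A, g A ≠ 0 → A.card = r) →
      (∀ C : Finset E, s < C.card → C.card < r → sm g C = 0) →
      ∀ D : Finset E, s < D.card → g D = 0 → sm g D = 0 := by
    intro g hg hg1 D hD hD0
    rcases lt_or_ge D.card r with h | h
    · exact hg1 D hD h
    · unfold sm
      apply sum_eq_zero
      intro A hA
      simp only [mem_filter, mem_univ, true_and] at hA
      by_contra hne
      have hc := hg A hne
      have : D = A := eq_of_subset_of_card_le hA (by omega)
      rw [← this] at hne
      exact hne hD0
  have e1 : nm f C F = sm f C := by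
    rw [incl_excl, ← sum_erase_add _ _ (empty_mem_powerset F)]
    rw [sum_eq_zero, zero_add]
    · simp
    · intro F' hF'
      rw [mem_erase, mem_powerset] at hF'
      have hne : F'.Nonempty := nonempty_iff_ne_empty.2 hF'.1
      have hd : Disjoint C F' := disjoint_of_subset_right hF'.2 hdis
      rw [key f hcard h1 (C ∪ F') ?_ (hF1 _ subset_union_left (union_subset_union_right hF'.2)),
        mul_zero]
      rw [card_union_of_disjoint hd, hC]
      have := hne.card_pos
      omega
  have e2 : nm f C F = 0 := by
    rw [nm_compl, incl_excl]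
    apply sum_eq_zero
    intro C' hC'
    rw [mem_powerset] at hC'
    rw [key (fun A => f Aᶜ) hcard' h1' (F ∪ C') ?_
      (hF2 _ subset_union_left (by
        rw [union_comm C F]; exact union_subset_union_right hC')), mul_zero]
    exact lt_of_lt_of_le hF (card_le_card subset_union_left)
  rw [← e1, e2]

/-- One level down by division. -/
theorem div_level {r k : ℕ} (f : Finset E → K) (hcard : ∀ A, f A ≠ 0 → A.card = r)
    (hk : (k : K) ≠ 0) (C : Finset E) (hC : C.card + k = r)
    (h1 : ∀ e, e ∉ C → sm f (insert e C) = 0) : sm f C = 0 := by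
  have e1 : ∑ e ∈ Cᶜ, sm f (insert e C) = (k : K) * sm f C := by
    have e2 : ∀ e ∈ Cᶜ, sm f (insert e C) =
        ∑ A ∈ univ.filter (fun A => C ⊆ A), if e ∈ A then f A else 0 := by
      intro e _
      unfold sm
      rw [← sum_filter, filter_filter]
      apply sum_congr _ (fun _ _ => rfl)
      ext A
      simp only [mem_filter, mem_univ, true_and, insert_subset_iff]
      tauto
    rw [sum_congr rfl e2, sum_comm]
    unfold sm
    rw [mul_sum]
    apply sum_congr rfl
    intro A hA
    simp only [mem_filter, mem_univ, true_and] at hA
    rw [← sum_filter, sum_const, nsmul_eq_mul]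
    by_cases hf : f A = 0
    · rw [hf]
      simp
    · have hcA := hcard A hf
      have : (Cᶜ.filter (fun e => e ∈ A)) = A \ C := by
        ext x
        simp only [mem_filter, mem_compl, mem_sdiff]
        tauto
      rw [this, card_sdiff_of_subset hA]
      have : A.card - C.card = k := by omega
      rw [this]
  rw [sum_eq_zero (fun e he => h1 e (mem_compl.1 he))] at e1
  rcases mul_eq_zero.1 e1.symm with h | h
  · exact absurd h hk
  · exact h

/-- The value at the complement. -/
theorem compl_value {r : ℕ} (f : Finset E → K) (hE : Fintype.card E = 2 * r)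
    (hcard : ∀ A, f A ≠ 0 → A.card = r)
    (h1 : ∀ C : Finset E, C.card < r → sm f C = 0) (A : Finset E) (hA : A.card = r) :
    f Aᶜ = (-1) ^ r * f A := by
  have e1 : nm f ∅ A = f Aᶜ := by
    unfold nm
    rw [sum_eq_single_of_mem Aᶜ]
    · simp only [mem_filter, mem_univ, true_and, empty_subset]
      exact disjoint_compl_right
    · intro B hB hne
      simp only [mem_filter, mem_univ, true_and, empty_subset] at hB
      by_contra hf
      have hcB := hcard B hf
      apply hne
      apply eq_of_subset_of_card_le
      · intro x hx
        rw [mem_compl]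
        intro hx2
        exact disjoint_left.1 hB hx2 hx
      · rw [card_compl, hE, hA, hcB]
        omega
  rw [← e1, incl_excl, ← sum_erase_add _ _ (mem_powerset_self A), sum_eq_zero, zero_add,
    empty_union, hA]
  · congr 1
    unfold sm
    rw [sum_eq_single_of_mem A]
    · simp
    · intro B hB hne
      simp only [mem_filter, mem_univ, true_and] at hB
      by_contra hf
      have hcB := hcard B hf
      exact hne (eq_of_subset_of_card_le hB (by omega)).symm
  · intro B hB
    rw [mem_erase, mem_powerset] at hB
    rw [empty_union, h1 B, mul_zero]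
    rw [← hA]
    exact card_lt_card (Finset.ssubset_iff_subset_ne.2 ⟨hB.2, hB.1⟩)

/-- The free levels: `2 (r - s) ≥ r + 2`. -/
theorem free {r s : ℕ} (f : Finset E → K) (hE : Fintype.card E = 2 * r)
    (hcard : ∀ A, f A ≠ 0 → A.card = r)
    (h1 : ∀ C : Finset E, s < C.card → C.card < r → sm f C = 0)
    (h1' : ∀ C : Finset E, s < C.card → C.card < r → sm (fun A => f Aᶜ) C = 0)
    (hs : 2 * s + 2 ≤ r) (C : Finset E) (hC : C.card = s) : sm f C = 0 := by
  have hcard' : ∀ A, f Aᶜ ≠ 0 → A.card = r := by
    intro A hA
    have := hcard _ hA
    have h2 := card_le_univ A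
    rw [card_compl, hE] at this
    rw [hE] at h2
    omega
  obtain ⟨F, hFC, hF⟩ := exists_subset_card_eq (s := Cᶜ) (n := s + 1) (by
    rw [card_compl, hE, hC]; omega)
  have hdis : Disjoint C F := by
    rw [disjoint_left]
    intro x hx hx2
    exact (mem_compl.1 (hFC hx2)) hx
  have hle : ∀ A, A ⊆ C ∪ F → A.card < r := by
    intro A hA
    have := card_le_card hA
    rw [card_union_of_disjoint hdis] at this
    omega
  refine crit f hcard hcard' h1 h1' C F hC hdis (by omega) ?_ ?_
  · intro A _ hA
    by_contra hf
    have := hcard A hf
    have := hle A hA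
    omega
  · intro A _ hA
    by_contra hf
    have := hcard' A hf
    have := hle A hA
    omega

end Pool.Agent.H37Du
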