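import Pool.Agent.H37Du.Core
import Pool.Agent.H60G2.End1

/-!
# Binary matroids: the swap of two bases with `|B \ B'| ≤ 10` by single symmetric exchanges
-/

set_option autoImplicit false

open Finset

namespace Pool.Agent.H37Du

/-- **The swap.** -/
theorem binary_swap {α V : Type*} [AddCommGroup V] [Module (ZMod 2) V]
    (M : Matroid α) (φ : α → V) (hφ : ∀ X ⊆ M.E, M.Indep X ↔ LinearIndepOn (ZMod 2) φ X)
    {B B' : Set α} (hB : M.IsBase B) (hB' : M.IsBase B') (hfin : B.Finite)
    (hn : (B \ B').ncard ≤ 10) :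
    Relation.ReflTransGen (H11SW.SymExchange M) (B, B') (B', B) := by
  refine H60G2.swap1_of_core (K := ZMod 2) M φ hφ hB hB' hfin rfl ?_
  intro v w hrel S hS hd
  have hFS : H97CB.FF v w S ≠ 0 :=
    (H97CB.FF_ne_zero v w S).2 ⟨hS, H60G2.indep_left v w S hS hd, H60G2.indep_right v w S hS hd⟩
  refine Relation.ReflTransGen.mono ?_ _ _
    (binary_reach hn v w hrel (by simp [two_mul]) S hFS)
  rintro A A' ⟨_, h2, h3⟩
  have h4 : A'.card = (B \ B').ncard := ((H97CB.FF_ne_zero v w A').1 h2).1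
  refine ⟨h4, ?_, h3⟩
  unfold H97CB.FF at h2
  rw [if_pos h4] at h2
  exact h2

end Pool.Agent.H37Du
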