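import Pool.Agent.H37Du.Binary

/-!
# The sums over a union of components: sets of size `r - 1` and `r - 2`
-/

set_option autoImplicit false

open Finset

namespace Pool.Agent.H37Du

variable {E : Type*} [Fintype E] [DecidableEq E] {K : Type*} [Field K]

theorem level1 {r : ℕ} (F : Finset E → K)
    (Y : Finset E → Prop) [DecidablePred Y]
    (hY : ∀ A B, F A ≠ 0 → F B ≠ 0 → r ≤ (A ∩ B).card + 1 → Y A → Y B)
    (C : Finset E) (hC : C.card + 1 = r) (htot : sm F C = 0) :
    sm (fun A => if Y A then F A else 0) C = 0 := by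
  by_cases h : ∃ A, C ⊆ A ∧ F A ≠ 0 ∧ Y A
  · obtain ⟨A, hCA, hFA, hYA⟩ := h
    refine Eq.trans ?_ htot
    unfold sm
    apply sum_congr rfl
    intro B hB
    simp only [mem_filter, mem_univ, true_and] at hB
    by_cases hFB : F B = 0
    · simp [hFB]
    · change (if Y B then F B else 0) = F B
      rw [if_pos]
      apply hY A B hFA hFB _ hYA
      have := card_le_card (subset_inter hCA hB)
      omega
  · push Not at h
    unfold sm
    apply sum_eq_zero
    intro B hB
    simp only [mem_filter, mem_univ, true_and] at hB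
    by_cases hFB : F B = 0
    · simp [hFB]
    · rw [if_neg (h B hB hFB)]

theorem level2 {r : ℕ} {β γ : Type*} (F : Finset E → K) (hcard : ∀ A, F A ≠ 0 → A.card = r)
    (Y : Finset E → Prop) [DecidablePred Y]
    (hY : ∀ A B, F A ≠ 0 → F B ≠ 0 → r ≤ (A ∩ B).card + 1 → Y A → Y B)
    (C : Finset E) (hC : C.card + 2 = r) (htot : sm F C = 0)
    (h1 : ∀ D : Finset E, D.card + 1 = r → sm (fun A => if Y A then F A else 0) D = 0)
    (T : E → Prop) (V : E → β) (W : E → γ)
    (hF : ∀ x y, x ∉ C → y ∉ C → x ≠ y →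
      (F (insert x (insert y C)) ≠ 0 ↔ T x ∧ T y ∧ V x ≠ V y ∧ W x ≠ W y)) :
    sm (fun A => if Y A then F A else 0) C = 0 := by
  classical
  have hmem : ∀ A, C ⊆ A → F A ≠ 0 →
      ∃ x y, x ∉ C ∧ y ∉ C ∧ x ≠ y ∧ A = insert x (insert y C) := by
    intro A hCA hFA
    have hc := hcard A hFA
    have h2 : (A \ C).card = 2 := by
      rw [card_sdiff_of_subset hCA]; omega
    obtain ⟨x, y, hxy, he⟩ := card_eq_two.1 h2
    refine ⟨x, y, ?_, ?_, hxy, ?_⟩
    · have : x ∈ A \ C := by rw [he]; simp
      exact (mem_sdiff.1 this).2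
    · have : y ∈ A \ C := by rw [he]; simp
      exact (mem_sdiff.1 this).2
    · rw [← sdiff_union_of_subset hCA, he]
      ext z
      simp only [mem_union, mem_insert, mem_singleton]
      tauto
  have hadj : ∀ x y z, x ∉ C → F (insert x (insert y C)) ≠ 0 → F (insert x (insert z C)) ≠ 0 →
      Y (insert x (insert y C)) → Y (insert x (insert z C)) := by
    intro x y z hx h2 h3 h4
    apply hY _ _ h2 h3 _ h4
    have h5 : insert x C ⊆ insert x (insert y C) ∩ insert x (insert z C) := by
      apply subset_inter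
      · exact insert_subset_insert _ (subset_insert _ _)
      · exact insert_subset_insert _ (subset_insert _ _)
    have := card_le_card h5
    rw [card_insert_of_notMem hx] at this
    omega
  by_cases hall : ∀ A, C ⊆ A → F A ≠ 0 → Y A
  · refine Eq.trans ?_ htot
    unfold sm
    apply sum_congr rfl
    intro B hB
    simp only [mem_filter, mem_univ, true_and] at hB
    by_cases hFB : F B = 0
    · simp [hFB]
    · change (if Y B then F B else 0) = F B
      rw [if_pos (hall B hB hFB)]
  by_cases hnone : ∀ A, C ⊆ A → F A ≠ 0 → ¬ Y A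
  · unfold sm
    apply sum_eq_zero
    intro B hB
    simp only [mem_filter, mem_univ, true_and] at hB
    by_cases hFB : F B = 0
    · simp [hFB]
    · rw [if_neg (hnone B hB hFB)]
  push Not at hall hnone
  obtain ⟨A, hCA, hFA, hYA⟩ := hnone
  obtain ⟨A', hCA', hFA', hYA'⟩ := hall
  obtain ⟨a, b, ha, hb, hab, rfl⟩ := hmem A hCA hFA
  obtain ⟨c, d, hc, hd, hcd, rfl⟩ := hmem A' hCA' hFA'
  obtain ⟨Ta, Tb, Vab, Wab⟩ := (hF a b ha hb hab).1 hFA
  obtain ⟨Tc, Td, Vcd, Wcd⟩ := (hF c d hc hd hcd).1 hFA'
  -- elements adjacent to the first pair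
  have hP : ∀ e, e ∉ C → T e → (V e = V a ∨ V e = V b) ∨
      ∃ z, F (insert e (insert z C)) ≠ 0 ∧ Y (insert e (insert z C)) := by
    intro e he Te
    by_cases h2 : V e = V a
    · exact Or.inl (Or.inl h2)
    by_cases h3 : V e = V b
    · exact Or.inl (Or.inr h3)
    right
    by_cases h4 : W e = W a
    · have h5 : W e ≠ W b := fun h => Wab (h4.symm.trans h)
      have heb : e ≠ b := fun h => h3 (by rw [h])
      have h6 := (hF e b he hb heb).2 ⟨Te, Tb, h3, h5⟩
      refine ⟨b, h6, ?_⟩
      rw [insert_comm] at h6 ⊢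
      rw [insert_comm] at hFA hYA
      exact hadj b a e hb hFA h6 hYA
    · have hea : e ≠ a := fun h => h2 (by rw [h])
      have h6 := (hF e a he ha hea).2 ⟨Te, Ta, h2, h4⟩
      refine ⟨a, h6, ?_⟩
      rw [insert_comm] at h6 ⊢
      exact hadj a b e ha hFA h6 hYA
  have hQ : ∀ e, e ∉ C → T e → (V e = V c ∨ V e = V d) ∨
      ∃ z, F (insert e (insert z C)) ≠ 0 ∧ ¬ Y (insert e (insert z C)) := by
    intro e he Te
    by_cases h2 : V e = V c
    · exact Or.inl (Or.inl h2)
    by_cases h3 : V e = V d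
    · exact Or.inl (Or.inr h3)
    right
    by_cases h4 : W e = W c
    · have h5 : W e ≠ W d := fun h => Wcd (h4.symm.trans h)
      have hed : e ≠ d := fun h => h3 (by rw [h])
      have h6 := (hF e d he hd hed).2 ⟨Te, Td, h3, h5⟩
      refine ⟨d, h6, fun h7 => hYA' ?_⟩
      rw [insert_comm] at h6 h7 hFA' ⊢
      exact hadj d e c hd h6 hFA' h7
    · have hec : e ≠ c := fun h => h2 (by rw [h])
      have h6 := (hF e c he hc hec).2 ⟨Te, Tc, h2, h4⟩
      refine ⟨c, h6, fun h7 => hYA' ?_⟩
      rw [insert_comm] at h6 h7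
      exact hadj c e d hc h6 hFA' h7
  have hVc : V c = V a ∨ V c = V b := by
    rcases hP c hc Tc with h | ⟨z, h2, h3⟩
    · exact h
    · exact absurd (hadj c z d hc h2 hFA' h3) hYA'
  have hVd : V d = V a ∨ V d = V b := by
    rcases hP d hd Td with h | ⟨z, h2, h3⟩
    · exact h
    · rw [insert_comm] at hFA' hYA'
      exact absurd (hadj d z c hd h2 hFA' h3) hYA'
  have hV : ∀ e, e ∉ C → T e → V e = V a ∨ V e = V b := by
    intro e he Te
    rcases hP e he Te with h | ⟨z, h2, h3⟩
    · exact h
    rcases hQ e he Te with h | ⟨z', h4, h5⟩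
    · rcases h with h | h
      · rw [h]; exact hVc
      · rw [h]; exact hVd
    · exact absurd (hadj e z z' he h2 h4 h3) h5
  -- the colouring
  set f : Finset E → K := fun A => if Y A then F A else 0 with hf
  set Z : Finset E := univ.filter (fun z => z ∉ C ∧ T z ∧ V z = V a) with hZ
  have hcol : ∀ A, C ⊆ A → f A = ∑ z ∈ Z, if z ∈ A then f A else 0 := by
    intro A hCA
    by_cases hFA0 : F A = 0
    · have : f A = 0 := by simp [hf, hFA0]
      simp [this]
    obtain ⟨x, y, hx, hy, hxy, rfl⟩ := hmem A hCA hFA0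
    obtain ⟨Tx, Ty, Vxy, Wxy⟩ := (hF x y hx hy hxy).1 hFA0
    have main : ∀ u v, u ∉ C → v ∉ C → u ≠ v → T u → V u = V a → V v ≠ V a →
        f (insert u (insert v C)) = ∑ z ∈ Z, if z ∈ (insert u (insert v C) : Finset E) then
          f (insert u (insert v C)) else 0 := by
      intro u v hu hv huv Tu Vu Vv
      rw [sum_eq_single_of_mem u]
      · simp
      · rw [hZ, mem_filter]
        exact ⟨mem_univ _, hu, Tu, Vu⟩
      · intro z hz hzu
        rw [hZ, mem_filter] at hz
        rw [if_neg]
        rw [mem_insert, mem_insert]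
        rintro (h | h | h)
        · exact hzu h
        · rw [h] at hz
          exact Vv hz.2.2.2
        · exact hz.2.1 h
    rcases hV x hx Tx with h | h
    · exact main x y hx hy hxy Tx h (fun h2 => Vxy (h.trans h2.symm))
    · rcases hV y hy Ty with h2 | h2
      · rw [insert_comm]
        refine main y x hy hx hxy.symm Ty h2 (fun h3 => Vxy (h3.trans h2.symm))
      · exact absurd (h.trans h2.symm) Vxy
  have hsum : sm f C = ∑ z ∈ Z, sm f (insert z C) := by
    unfold sm
    rw [sum_congr rfl (fun A hA => hcol A (by simpa using hA)), sum_comm]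
    apply sum_congr rfl
    intro z hz
    rw [← sum_filter, filter_filter]
    apply sum_congr _ (fun _ _ => rfl)
    ext A
    simp only [mem_filter, mem_univ, true_and, insert_subset_iff]
    tauto
  rw [hsum]
  apply sum_eq_zero
  intro z hz
  apply h1
  rw [hZ, mem_filter] at hz
  rw [card_insert_of_notMem hz.2.1]
  omega

end Pool.Agent.H37Du
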