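import Pool.Agent.H37Du.Count

/-!
# Single exchanges over every field, for `|B \ B'|` small compared with the characteristic
-/

set_option autoImplicit false

open Finset

namespace Pool.Agent.H37Du

variable {E : Type*} [Fintype E] [DecidableEq E] {K : Type*} [Field K] {r : ℕ}

lemma FF_iff_CB (v w : E → Fin r → K) (A : Finset E) :
    H97CB.FF v w A ≠ 0 ↔ H41FR2.CB v w A := H97CB.FF_ne_zero v w A

/-- If the sum does not vanish, there is a pair at distance two over `C`. -/
theorem exists_pair {v w : E → Fin r → K} (hrel : ∀ i j, ∑ x, v x i * w x j = 0)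
    {Y : Finset E → Prop} (hY : Cl v w Y) {s : ℕ} (hs : s < r)
    (h1 : ∀ C : Finset E, s < C.card → C.card < r → sm (ff v w Y) C = 0)
    (C : Finset E) (hC : C.card = s) (hne : sm (ff v w Y) C ≠ 0) :
    ∃ P Q : Finset E, C ⊆ P ∧ C ⊆ Q ∧ H97CB.FF v w P ≠ 0 ∧ H97CB.FF v w Q ≠ 0 ∧ Y P ∧ ¬ Y Q ∧
      (P ∩ Q).card + 2 = r := by
  have hcard : ∀ A, ff v w Y A ≠ 0 → A.card = r := fun A hA =>
    ((H97CB.FF_ne_zero v w A).1 (ff_ne hA).2).1
  obtain ⟨A, hA1, hA2⟩ : ∃ A, C ⊆ A ∧ ff v w Y A ≠ 0 := by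
    by_contra hcon
    push Not at hcon
    apply hne
    unfold sm
    apply sum_eq_zero
    intro A hA
    exact hcon A (by simpa using hA)
  obtain ⟨A', hA1', hA2', hA3'⟩ : ∃ A', C ⊆ A' ∧ H97CB.FF v w A' ≠ 0 ∧ ¬ Y A' := by
    by_contra hcon
    push Not at hcon
    apply hne
    refine Eq.trans ?_ (H97CB.FF_sum hrel C (by omega))
    unfold sm
    apply sum_congr rfl
    intro A hA
    by_cases hFA : H97CB.FF v w A = 0
    · rw [hFA]
      by_contra h
      exact (ff_ne h).2 hFA
    · rw [ff_pos (hcon A (by simpa using hA) hFA)]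
  rcases H41FR2.cut v w C (fun A B => C ⊆ A ∧ C ⊆ B ∧ H41FR2.CB v w A ∧ H41FR2.CB v w B ∧
      r ≤ (A ∩ B).card + 2) (fun A B h2 h3 h4 h5 h6 => ⟨h2, h3, h4, h5, h6⟩) with h | h
  · have hpath := h A A' hA1 hA1' ((FF_iff_CB v w A).1 (ff_ne hA2).2) ((FF_iff_CB v w A').1 hA2')
    have key : ∀ B, Relation.ReflTransGen (fun A B => C ⊆ A ∧ C ⊆ B ∧ H41FR2.CB v w A ∧
        H41FR2.CB v w B ∧ r ≤ (A ∩ B).card + 2) A B → ¬ Y B →
        ∃ P Q : Finset E, C ⊆ P ∧ C ⊆ Q ∧ H41FR2.CB v w P ∧ H41FR2.CB v w Q ∧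
          r ≤ (P ∩ Q).card + 2 ∧ Y P ∧ ¬ Y Q := by
      intro B hB
      induction hB with
      | refl => intro h2; exact absurd (ff_ne hA2).1 h2
      | @tail B B' _ hstep ih =>
        intro hB'
        by_cases hYB : Y B
        · exact ⟨B, B', hstep.1, hstep.2.1, hstep.2.2.1, hstep.2.2.2.1, hstep.2.2.2.2, hYB, hB'⟩
        · exact ih hYB
    obtain ⟨P, Q, p1, p2, p3, p4, p5, p6, p7⟩ := key A' hpath hA3'
    have q1 := (FF_iff_CB v w P).2 p3
    have q2 := (FF_iff_CB v w Q).2 p4
    refine ⟨P, Q, p1, p2, q1, q2, p6, p7, ?_⟩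
    by_contra hcc
    exact p7 (hY P Q q1 q2 (by omega) p6)
  · obtain ⟨Z, hZ1, hZ2, hZ3⟩ := h
    exfalso
    apply hne
    rw [← nm_eq_sm hcard h1 C Z hC hZ1.symm ?_]
    · unfold nm
      apply sum_eq_zero
      intro B hB
      simp only [mem_filter, mem_univ, true_and] at hB
      by_contra h
      exact hZ3 B hB.1 hB.2.symm ((FF_iff_CB v w B).1 (ff_ne h).2)
    · intro B hB1 hB2
      by_contra h
      exact hZ2 B hB1 hB2 ((FF_iff_CB v w B).1 (ff_ne h).2)

/-- The covering by three sets. -/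
theorem cover {v w : E → Fin r → K} {Y : Finset E → Prop} (hY : Cl v w Y)
    {P Q : Finset E} (hP : H97CB.FF v w P ≠ 0) (hQ : H97CB.FF v w Q ≠ 0) (hYP : Y P)
    (hYQ : ¬ Y Q) (hPQ : (P ∩ Q).card + 2 = r) :
    ∃ p1 p2 q1 q2 : Submodule K (Fin r → K), p1 ≠ ⊤ ∧ p2 ≠ ⊤ ∧ q1 ≠ ⊤ ∧ q2 ≠ ⊤ ∧
      Submodule.span K (v '' ((P ∩ Q : Finset E) : Set E)) ≤ p1 ⊓ p2 ∧
      Submodule.span K (w '' ((P ∩ Q : Finset E) : Set E)) ≤ q1 ⊓ q2 ∧
      (∀ e, v e ∈ p1 ∨ v e ∈ p2 ∨ w e ∈ Submodule.span K (w '' ((P ∩ Q : Finset E) : Set E))) ∧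
      ∀ e, w e ∈ q1 ∨ w e ∈ q2 ∨ v e ∈ Submodule.span K (v '' ((P ∩ Q : Finset E) : Set E)) := by
  classical
  set G := P ∩ Q with hG
  obtain ⟨cP, vP, wP⟩ := (H97CB.FF_ne_zero v w P).1 hP
  obtain ⟨cQ, vQ, wQ⟩ := (H97CB.FF_ne_zero v w Q).1 hQ
  have hpair : ∀ A : Finset E, G ⊆ A → A.card = r →
      ∃ x y, x ∉ G ∧ y ∉ G ∧ x ≠ y ∧ A = insert x (insert y G) := by
    intro A hCA hc
    have h2 : (A \ G).card = 2 := by
      rw [card_sdiff_of_subset hCA]; omega
    obtain ⟨x, y, hxy, he⟩ := card_eq_two.1 h2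
    refine ⟨x, y, ?_, ?_, hxy, ?_⟩
    · have : x ∈ A \ G := by rw [he]; simp
      exact (mem_sdiff.1 this).2
    · have : y ∈ A \ G := by rw [he]; simp
      exact (mem_sdiff.1 this).2
    · rw [← sdiff_union_of_subset hCA, he]
      ext z
      simp only [mem_union, mem_insert, mem_singleton]
      tauto
  obtain ⟨a, b, ha, hb, hab, hPe⟩ := hpair P inter_subset_left cP
  obtain ⟨c, d, hc, hd, hcd, hQe⟩ := hpair Q inter_subset_right cQ
  clear_value G
  rw [hPe] at hP hYP vP wP
  rw [hQe] at hQ hYQ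
  have hv : LinearIndepOn K v (G : Set E) := vP.mono (by
    intro x hx
    simp only [coe_insert, Set.mem_insert_iff]
    exact Or.inr (Or.inr hx))
  have hw : LinearIndepOn K w (G : Set E) := wP.mono (by
    intro x hx
    simp only [coe_insert, Set.mem_insert_iff]
    exact Or.inr (Or.inr hx))
  have hiff : ∀ x y, x ∉ G → y ∉ G → x ≠ y → (H97CB.FF v w (insert x (insert y G)) ≠ 0 ↔
      (v x ∉ Submodule.span K (v '' (G : Set E)) ∧ w x ∉ Submodule.span K (w '' (G : Set E))) ∧
      (v y ∉ Submodule.span K (v '' (G : Set E)) ∧ w y ∉ Submodule.span K (w '' (G : Set E))) ∧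
      Submodule.span K (v '' insert x (G : Set E)) ≠ Submodule.span K (v '' insert y (G : Set E)) ∧
      Submodule.span K (w '' insert x (G : Set E)) ≠
        Submodule.span K (w '' insert y (G : Set E))) := by
    intro x y hx hy hxy
    rw [H97CB.FF_ne_zero]
    have hc : (insert x (insert y G)).card = r := by
      rw [card_insert_of_notMem, card_insert_of_notMem hy]
      · omega
      · rw [mem_insert]
        tauto
    rw [coe_insert, coe_insert, indep_two v hv (by exact_mod_cast hx) (by exact_mod_cast hy) hxy,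
      indep_two w hw (by exact_mod_cast hx) (by exact_mod_cast hy) hxy]
    tauto
  have g1 := grid (H97CB.FF v w) Y hY G hPQ
    (fun x => v x ∉ Submodule.span K (v '' (G : Set E)) ∧
      w x ∉ Submodule.span K (w '' (G : Set E)))
    (fun x => Submodule.span K (v '' insert x (G : Set E)))
    (fun x => Submodule.span K (w '' insert x (G : Set E)))
    hiff a b c d ha hb hab hc hd hcd hP hYP hQ hYQ
  have g2 := grid (H97CB.FF v w) Y hY G hPQ
    (fun x => v x ∉ Submodule.span K (v '' (G : Set E)) ∧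
      w x ∉ Submodule.span K (w '' (G : Set E)))
    (fun x => Submodule.span K (w '' insert x (G : Set E)))
    (fun x => Submodule.span K (v '' insert x (G : Set E)))
    (by
      intro x y hx hy hxy
      rw [hiff x y hx hy hxy]
      tauto) a b c d ha hb hab hc hd hcd hP hYP hQ hYQ
  obtain ⟨⟨Ta1, Ta2⟩, ⟨Tb1, Tb2⟩, Vab, Wab⟩ := (hiff a b ha hb hab).1 hP
  have hself : ∀ (u : E → Fin r → K) (z : E), u z ∈ Submodule.span K (u '' insert z (G : Set E)) :=
    fun u z => Submodule.subset_span ⟨z, Set.mem_insert _ _, rfl⟩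
  have hmono : ∀ (u : E → Fin r → K) (z : E), Submodule.span K (u '' (G : Set E)) ≤
      Submodule.span K (u '' insert z (G : Set E)) :=
    fun u z => Submodule.span_mono (Set.image_mono (Set.subset_insert _ _))
  have hle : ∀ (u : E → Fin r → K) (x y : E), u x ∈ Submodule.span K (u '' insert y (G : Set E)) →
      Submodule.span K (u '' insert x (G : Set E)) ≤
        Submodule.span K (u '' insert y (G : Set E)) := by
    intro u x y h
    rw [Submodule.span_le]
    rintro _ ⟨z, hz, rfl⟩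
    rcases hz with rfl | hz
    · exact h
    · exact hmono u y (Submodule.subset_span ⟨z, hz, rfl⟩)
  have htop : ∀ (u : E → Fin r → K) (x y : E), Submodule.span K (u '' insert x (G : Set E)) ≠
      Submodule.span K (u '' insert y (G : Set E)) →
      u y ∉ Submodule.span K (u '' (G : Set E)) →
      Submodule.span K (u '' insert x (G : Set E)) ≠ ⊤ := by
    intro u x y hxy hy ht
    have h3 : u y ∈ Submodule.span K (u '' insert x (G : Set E)) := by rw [ht]; trivial
    apply hxy
    apply le_antisymm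
    · apply hle
      have h4 : u y ∈ Submodule.span K (insert (u x) (u '' (G : Set E))) := by
        rw [← Set.image_insert_eq]; exact h3
      have h5 := mem_span_insert_exchange h4 hy
      rw [← Set.image_insert_eq] at h5
      exact h5
    · exact hle u y x h3
  refine ⟨Submodule.span K (v '' insert a (G : Set E)), Submodule.span K (v '' insert b (G : Set E)),
    Submodule.span K (w '' insert a (G : Set E)), Submodule.span K (w '' insert b (G : Set E)),
    htop v a b Vab Tb1, htop v b a Vab.symm Ta1, htop w a b Wab Tb2, htop w b a Wab.symm Ta2,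
    le_inf (hmono v a) (hmono v b), le_inf (hmono w a) (hmono w b), ?_, ?_⟩
  · intro e
    by_cases he : e ∈ G
    · exact Or.inl (hmono v a (Submodule.subset_span ⟨e, he, rfl⟩))
    by_cases hv0 : v e ∈ Submodule.span K (v '' (G : Set E))
    · exact Or.inl (hmono v a hv0)
    by_cases hw0 : w e ∈ Submodule.span K (w '' (G : Set E))
    · exact Or.inr (Or.inr hw0)
    rcases g1 e he ⟨hv0, hw0⟩ with h | h
    · left
      have := hself v e
      rw [h] at this
      exact this
    · right; left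
      have := hself v e
      rw [h] at this
      exact this
  · intro e
    by_cases he : e ∈ G
    · exact Or.inl (hmono w a (Submodule.subset_span ⟨e, he, rfl⟩))
    by_cases hw0 : w e ∈ Submodule.span K (w '' (G : Set E))
    · exact Or.inl (hmono w a hw0)
    by_cases hv0 : v e ∈ Submodule.span K (v '' (G : Set E))
    · exact Or.inr (Or.inr hv0)
    rcases g2 e he ⟨hv0, hw0⟩ with h | h
    · left
      have := hself w e
      rw [h] at this
      exact this
    · right; left
      have := hself w e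
      rw [h] at this
      exact this

/-- The count: one level. -/
theorem count_level {v w : E → Fin r → K} (hrel : ∀ i j, ∑ x, v x i * w x j = 0)
    (hE : Fintype.card E = 2 * r) {Y : Finset E → Prop} (hY : Cl v w Y) {s k : ℕ}
    (hk : s + k = r) (hk0 : 0 < k) (hk4 : r + 3 ≤ 4 * k)
    (h1 : ∀ C : Finset E, s < C.card → C.card < r → sm (ff v w Y) C = 0)
    (h1' : ∀ C : Finset E, s < C.card → C.card < r → sm (fun A => ff v w Y Aᶜ) C = 0)
    (C : Finset E) (hC : C.card = s) : sm (ff v w Y) C = 0 := by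
  classical
  by_contra hne
  obtain ⟨P, Q, p1, p2, p3, p4, p5, p6, p7⟩ := exists_pair hrel hY (by omega) h1 C hC hne
  obtain ⟨a1, a2, b1, b2, ta1, ta2, tb1, tb2, ha, hb, c1, c2⟩ := cover hY p3 p4 p5 p6 p7
  set G := P ∩ Q with hG
  have hCG : C ⊆ G := subset_inter p1 p2
  set M1 := univ.filter (fun e => v e ∈ Submodule.span K (v '' (G : Set E))) with hM1
  set M2 := univ.filter (fun e => w e ∈ Submodule.span K (w '' (G : Set E))) with hM2
  set F1 := univ.filter (fun e => v e ∈ a1) with hF1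
  set F2 := univ.filter (fun e => v e ∈ a2) with hF2
  set G1 := univ.filter (fun e => w e ∈ b1) with hG1
  set G2 := univ.filter (fun e => w e ∈ b2) with hG2
  have hGM1 : G ⊆ M1 := by
    intro e he
    rw [hM1, mem_filter]
    exact ⟨mem_univ _, Submodule.subset_span ⟨e, he, rfl⟩⟩
  have hGM2 : G ⊆ M2 := by
    intro e he
    rw [hM2, mem_filter]
    exact ⟨mem_univ _, Submodule.subset_span ⟨e, he, rfl⟩⟩
  have hM1F : M1 ⊆ F1 ∩ F2 := by
    intro e he
    rw [hM1, mem_filter] at he
    rw [mem_inter, hF1, hF2, mem_filter, mem_filter]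
    exact ⟨⟨mem_univ _, (ha he.2).1⟩, ⟨mem_univ _, (ha he.2).2⟩⟩
  have hM2G : M2 ⊆ G1 ∩ G2 := by
    intro e he
    rw [hM2, mem_filter] at he
    rw [mem_inter, hG1, hG2, mem_filter, mem_filter]
    exact ⟨⟨mem_univ _, (hb he.2).1⟩, ⟨mem_univ _, (hb he.2).2⟩⟩
  have bF1 : F1.card ≤ 2 * s := hyp_bound hrel hE h1 h1' C hC hne F1
    ((hCG.trans (hGM1.trans hM1F)).trans inter_subset_left)
    (FF_zero_of_le (Or.inl rfl) ta1 (fun e he => by
      rw [hF1, mem_filter] at he; exact he.2))
  have bF2 : F2.card ≤ 2 * s := hyp_bound hrel hE h1 h1' C hC hne F2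
    ((hCG.trans (hGM1.trans hM1F)).trans inter_subset_right)
    (FF_zero_of_le (Or.inl rfl) ta2 (fun e he => by
      rw [hF2, mem_filter] at he; exact he.2))
  have bG1 : G1.card ≤ 2 * s := hyp_bound hrel hE h1 h1' C hC hne G1
    ((hCG.trans (hGM2.trans hM2G)).trans inter_subset_left)
    (FF_zero_of_le (Or.inr rfl) tb1 (fun e he => by
      rw [hG1, mem_filter] at he; exact he.2))
  have bG2 : G2.card ≤ 2 * s := hyp_bound hrel hE h1 h1' C hC hne G2
    ((hCG.trans (hGM2.trans hM2G)).trans inter_subset_right)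
    (FF_zero_of_le (Or.inr rfl) tb2 (fun e he => by
      rw [hG2, mem_filter] at he; exact he.2))
  have e1 : 2 * r ≤ (F1 ∪ F2).card + (M2 \ G).card := by
    have h2 : (univ : Finset E) ⊆ (F1 ∪ F2) ∪ (M2 \ G) := by
      intro e _
      by_cases heG : e ∈ G
      · exact mem_union_left _ (mem_union_left _ ((hGM1.trans hM1F).trans inter_subset_left heG))
      rcases c1 e with h | h | h
      · exact mem_union_left _ (mem_union_left _ (mem_filter.2 ⟨mem_univ _, h⟩))
      · exact mem_union_left _ (mem_union_right _ (mem_filter.2 ⟨mem_univ _, h⟩))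
      · exact mem_union_right _ (mem_sdiff.2 ⟨mem_filter.2 ⟨mem_univ _, h⟩, heG⟩)
    have h3 := card_le_card h2
    have h4 := card_union_le (F1 ∪ F2) (M2 \ G)
    rw [card_univ, hE] at h3
    omega
  have e2 : 2 * r ≤ (G1 ∪ G2).card + (M1 \ G).card := by
    have h2 : (univ : Finset E) ⊆ (G1 ∪ G2) ∪ (M1 \ G) := by
      intro e _
      by_cases heG : e ∈ G
      · exact mem_union_left _ (mem_union_left _ ((hGM2.trans hM2G).trans inter_subset_left heG))
      rcases c2 e with h | h | h
      · exact mem_union_left _ (mem_union_left _ (mem_filter.2 ⟨mem_univ _, h⟩))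
      · exact mem_union_left _ (mem_union_right _ (mem_filter.2 ⟨mem_univ _, h⟩))
      · exact mem_union_right _ (mem_sdiff.2 ⟨mem_filter.2 ⟨mem_univ _, h⟩, heG⟩)
    have h3 := card_le_card h2
    have h4 := card_union_le (G1 ∪ G2) (M1 \ G)
    rw [card_univ, hE] at h3
    omega
  rw [card_sdiff_of_subset hGM2] at e1
  rw [card_sdiff_of_subset hGM1] at e2
  have u1 := card_union_add_card_inter F1 F2
  have u2 := card_union_add_card_inter G1 G2
  have i1 := card_le_card hM1F
  have i2 := card_le_card hM2G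
  have j1 := card_le_card hGM1
  have j2 := card_le_card hGM2
  omega

/-- All levels. -/
theorem all_sums {v w : E → Fin r → K} (hrel : ∀ i j, ∑ x, v x i * w x j = 0)
    (hE : Fintype.card E = 2 * r)
    (hK : ∀ s : ℕ, 3 ≤ s → 4 * s ≤ r + 2 → (s : K) ≠ 0) :
    ∀ k : ℕ, 0 < k → ∀ Y : Finset E → Prop, Cl v w Y → ∀ C : Finset E, C.card + k = r →
      sm (ff v w Y) C = 0 := by
  classical
  intro k
  induction k using Nat.strong_induction_on with
  | _ k ih =>
  intro hk Y hY C hC
  have hlev := levels v w hrel Y hY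
  have hcard : ∀ A, ff v w Y A ≠ 0 → A.card = r := fun A hA =>
    ((H97CB.FF_ne_zero v w A).1 (ff_ne hA).2).1
  have hff : (fun A => if Y A then H97CB.FF v w A else 0) = ff v w Y := by
    funext A
    by_cases h : Y A
    · rw [ff_pos h, if_pos h]
    · rw [ff_neg h, if_neg h]
  rcases Nat.lt_or_ge k 3 with hk3 | hk3
  · interval_cases k
    · rw [← hff]; exact hlev.1 C hC
    · rw [← hff]; exact hlev.2 C hC
  have h1 : ∀ D : Finset E, C.card < D.card → D.card < r → sm (ff v w Y) D = 0 :=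
    fun D hD hDr => ih (r - D.card) (by omega) (by omega) Y hY D (by omega)
  rcases Nat.lt_or_ge (r + 2) (4 * k) with h4 | h4
  · refine count_level hrel hE hY (s := C.card) (k := k) (by omega) hk (by omega) h1 ?_ C rfl
    intro D hD hDr
    rw [sm_compl hrel hE, ih (r - D.card) (by omega) (by omega) _ (Cl_compl hrel hE hY) D
      (by omega), mul_zero]
  · refine div_level (ff v w Y) hcard (hK k hk3 h4) C hC ?_
    intro e he
    apply h1
    · rw [card_insert_of_notMem he]; omega
    · rw [card_insert_of_notMem he]; omega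

/-- **Single exchanges.** -/
theorem reach1 (v w : E → Fin r → K) (hrel : ∀ i j, ∑ x, v x i * w x j = 0)
    (hE : Fintype.card E = 2 * r)
    (hK : ∀ s : ℕ, 3 ≤ s → 4 * s ≤ r + 2 → (s : K) ≠ 0)
    (S : Finset E) (hS : H97CB.FF v w S ≠ 0) :
    Relation.ReflTransGen (fun A B => H97CB.FF v w A ≠ 0 ∧ H97CB.FF v w B ≠ 0 ∧
      r ≤ (A ∩ B).card + 1) S Sᶜ := by
  by_contra hcon
  set Y : Finset E → Prop := fun A => Relation.ReflTransGen (fun A B =>
    H97CB.FF v w A ≠ 0 ∧ H97CB.FF v w B ≠ 0 ∧ r ≤ (A ∩ B).card + 1) S A with hYdef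
  have hY : Cl v w Y := fun A B h1 h2 h3 h4 => h4.tail ⟨h1, h2, h3⟩
  have hcard : ∀ A, ff v w Y A ≠ 0 → A.card = r := fun A hA =>
    ((H97CB.FF_ne_zero v w A).1 (ff_ne hA).2).1
  have hval := compl_value (ff v w Y) hE hcard
    (fun C hC => all_sums hrel hE hK (r - C.card) (by omega) Y hY C (by omega)) S
    ((H97CB.FF_ne_zero v w S).1 hS).1
  rw [ff_neg hcon, ff_pos Relation.ReflTransGen.refl] at hval
  exact mul_ne_zero (pow_ne_zero _ (neg_ne_zero.2 one_ne_zero)) hS hval.symm

end Pool.Agent.H37Du
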