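import Pool.Agent.H37Du.Main
import Pool.Agent.H60G2.End1

/-!
# The swap of two bases by single symmetric exchanges, over every field
-/

set_option autoImplicit false

open Finset

namespace Pool.Agent.H37Du

/-- **The swap.** Every integer `s ≥ 3` with `4 s ≤ |B \ B'| + 2` is nonzero in `K`: this holds in
characteristic `0`, in characteristic `2` for `|B \ B'| ≤ 13`, in characteristic `3` for
`|B \ B'| ≤ 9` and in characteristic `p ≥ 5` for `|B \ B'| ≤ 4 p - 3`. -/
theorem single_swap {α V K : Type*} [Field K] [AddCommGroup V] [Module K V]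
    (M : Matroid α) (φ : α → V) (hφ : ∀ X ⊆ M.E, M.Indep X ↔ LinearIndepOn K φ X)
    {B B' : Set α} (hB : M.IsBase B) (hB' : M.IsBase B') (hfin : B.Finite)
    (hK : ∀ s : ℕ, 3 ≤ s → 4 * s ≤ (B \ B').ncard + 2 → (s : K) ≠ 0) :
    Relation.ReflTransGen (H11SW.SymExchange M) (B, B') (B', B) := by
  refine H60G2.swap1_of_core (K := K) M φ hφ hB hB' hfin rfl ?_
  intro v w hrel S hS hd
  have hFS : H97CB.FF v w S ≠ 0 :=
    (H97CB.FF_ne_zero v w S).2 ⟨hS, H60G2.indep_left v w S hS hd, H60G2.indep_right v w S hS hd⟩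
  refine Relation.ReflTransGen.mono ?_ _ _
    (reach1 v w hrel (by simp [two_mul]) hK S hFS)
  rintro A A' ⟨_, h2, h3⟩
  have h4 : A'.card = (B \ B').ncard := ((H97CB.FF_ne_zero v w A').1 h2).1
  refine ⟨h4, ?_, h3⟩
  unfold H97CB.FF at h2
  rw [if_pos h4] at h2
  exact h2

end Pool.Agent.H37Du
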